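import Mathlib

/-!
# Neumann series for resolvents on Frechet spaces (MP_18d2fb_an)

We build, over both scalar fields, a Frechet space `E` and a continuous linear map `U` on `E` such
that `I - l U` is a bijection for every scalar `l`, while the Neumann series of `U` diverges at
every nonzero vector for every nonzero `l`.

Construction: `X = l^∞(ℕ)`, `V : X → X`, `(V x) n = x (n+1) / (n+1)`, so that `‖V^k‖ ≤ 1 / k!`.
`E` is the projective limit of `X ← X ← X ← ⋯` along `V`, and `U` is the left shift on `E`,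
which is the inverse of the map induced by `V`.
-/

open Filter Topology BoundedContinuousFunction

namespace Pool.Agent.Results.MP_18d2fb_an.NeumannFails

variable (𝕜 : Type) [RCLike 𝕜]

/-- The weighted backward shift as a linear map on bounded functions. -/
noncomputable def Vlin : (ℕ →ᵇ 𝕜) →ₗ[𝕜] (ℕ →ᵇ 𝕜) where
  toFun x := BoundedContinuousFunction.ofNormedAddCommGroupDiscrete
    (fun n => x (n + 1) * ((n : 𝕜) + 1)⁻¹) ‖x‖ (by
      intro n
      rw [norm_mul, norm_inv]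
      have h1 : ‖x (n + 1)‖ ≤ ‖x‖ := x.norm_coe_le_norm (n + 1)
      have h2 : (1 : ℝ) ≤ ‖((n : 𝕜) + 1)‖ := by
        have : ((n : 𝕜) + 1) = (((n : ℝ) + 1 : ℝ) : 𝕜) := by push_cast; rfl
        rw [this, RCLike.norm_ofReal]
        rw [abs_of_nonneg (by positivity)]
        linarith [(Nat.cast_nonneg n : (0 : ℝ) ≤ (n : ℝ))]
      have h3 : ‖((n : 𝕜) + 1)‖⁻¹ ≤ 1 := inv_le_one_of_one_le₀ h2
      calc ‖x (n + 1)‖ * ‖((n : 𝕜) + 1)‖⁻¹ ≤ ‖x‖ * 1 := by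
            apply mul_le_mul h1 h3 (by positivity) (norm_nonneg _)
        _ = ‖x‖ := mul_one _)
  map_add' x y := by
    ext n
    simp [add_mul]
  map_smul' c x := by
    ext n
    simp [mul_assoc]

lemma Vlin_apply (x : ℕ →ᵇ 𝕜) (n : ℕ) : Vlin 𝕜 x n = x (n + 1) * ((n : 𝕜) + 1)⁻¹ := rfl

lemma norm_cast_succ (n : ℕ) : ‖((n : 𝕜) + 1)‖ = (n : ℝ) + 1 := by
  have : ((n : 𝕜) + 1) = (((n : ℝ) + 1 : ℝ) : 𝕜) := by push_cast; rfl
  rw [this, RCLike.norm_ofReal]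
  rw [abs_of_nonneg (by positivity)]

lemma Vlin_bound (x : ℕ →ᵇ 𝕜) : ‖Vlin 𝕜 x‖ ≤ 1 * ‖x‖ := by
  rw [one_mul, BoundedContinuousFunction.norm_le (norm_nonneg _)]
  intro n
  rw [Vlin_apply, norm_mul, norm_inv, norm_cast_succ]
  have h1 : ‖x (n + 1)‖ ≤ ‖x‖ := x.norm_coe_le_norm (n + 1)
  have h2 : (1 : ℝ) ≤ (n : ℝ) + 1 := by linarith [(Nat.cast_nonneg n : (0 : ℝ) ≤ (n : ℝ))]
  have h3 : ((n : ℝ) + 1)⁻¹ ≤ 1 := inv_le_one_of_one_le₀ h2
  calc ‖x (n + 1)‖ * ((n : ℝ) + 1)⁻¹ ≤ ‖x‖ * 1 := by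
        apply mul_le_mul h1 h3 (by positivity) (norm_nonneg _)
    _ = ‖x‖ := mul_one _

/-- The weighted backward shift as a continuous linear map. -/
noncomputable def V : (ℕ →ᵇ 𝕜) →L[𝕜] (ℕ →ᵇ 𝕜) := (Vlin 𝕜).mkContinuous 1 (Vlin_bound 𝕜)

lemma V_apply (x : ℕ →ᵇ 𝕜) (n : ℕ) : V 𝕜 x n = x (n + 1) * ((n : 𝕜) + 1)⁻¹ := rfl

lemma V_pow_coord (k : ℕ) : ∀ (x : ℕ →ᵇ 𝕜) (n : ℕ),
    ‖((V 𝕜) ^ k) x n‖ * ((n + k).factorial : ℝ) ≤ ‖x‖ * (n.factorial : ℝ) := by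
  induction k with
  | zero =>
    intro x n
    simp only [pow_zero, add_zero]
    exact mul_le_mul_of_nonneg_right (x.norm_coe_le_norm n) (by positivity)
  | succ k ih =>
    intro x n
    have h := ih x (n + 1)
    have e : ((V 𝕜) ^ (k + 1)) x n = ((V 𝕜) ^ k) x (n + 1) * ((n : 𝕜) + 1)⁻¹ := by
      rw [pow_succ']
      rfl
    rw [e, norm_mul, norm_inv, norm_cast_succ]
    have e2 : n + (k + 1) = n + 1 + k := by ring
    rw [e2]
    have e3 : ((n + 1).factorial : ℝ) = ((n : ℝ) + 1) * (n.factorial : ℝ) := by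
      rw [Nat.factorial_succ]; push_cast; ring
    rw [e3] at h
    have hn : (0 : ℝ) < (n : ℝ) + 1 := by positivity
    calc ‖((V 𝕜) ^ k) x (n + 1)‖ * ((n : ℝ) + 1)⁻¹ * ((n + 1 + k).factorial : ℝ)
        = ((n : ℝ) + 1)⁻¹ * (‖((V 𝕜) ^ k) x (n + 1)‖ * ((n + 1 + k).factorial : ℝ)) := by ring
      _ ≤ ((n : ℝ) + 1)⁻¹ * (‖x‖ * (((n : ℝ) + 1) * (n.factorial : ℝ))) :=
          mul_le_mul_of_nonneg_left h (by positivity)
      _ = ‖x‖ * (n.factorial : ℝ) := by field_simp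

lemma V_pow_norm (k : ℕ) (x : ℕ →ᵇ 𝕜) :
    ‖((V 𝕜) ^ k) x‖ ≤ ((k.factorial : ℝ))⁻¹ * ‖x‖ := by
  rw [BoundedContinuousFunction.norm_le (by positivity)]
  intro n
  have h := V_pow_coord 𝕜 k x n
  have hle : n.factorial * k.factorial ≤ (n + k).factorial :=
    Nat.le_of_dvd (Nat.factorial_pos _) (Nat.factorial_mul_factorial_dvd_factorial_add n k)
  have hle' : (n.factorial : ℝ) * (k.factorial : ℝ) ≤ ((n + k).factorial : ℝ) := by
    exact_mod_cast hle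
  have hk : (0 : ℝ) < (k.factorial : ℝ) := by exact_mod_cast Nat.factorial_pos k
  have hn : (0 : ℝ) < (n.factorial : ℝ) := by exact_mod_cast Nat.factorial_pos n
  have h2 : ‖((V 𝕜) ^ k) x n‖ * ((n.factorial : ℝ) * (k.factorial : ℝ))
      ≤ ‖x‖ * (n.factorial : ℝ) :=
    le_trans (mul_le_mul_of_nonneg_left hle' (norm_nonneg _)) h
  have h3 : ‖((V 𝕜) ^ k) x n‖ * (k.factorial : ℝ) ≤ ‖x‖ := by
    by_contra hc
    push Not at hc
    nlinarith
  rw [inv_mul_eq_div, le_div_iff₀ hk]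
  exact h3

lemma V_pow_opNorm (k : ℕ) : ‖(V 𝕜) ^ k‖ ≤ ((k.factorial : ℝ))⁻¹ :=
  ContinuousLinearMap.opNorm_le_bound _ (by positivity) (V_pow_norm 𝕜 k)

lemma smul_V_pow (m : 𝕜) (k : ℕ) (x : ℕ →ᵇ 𝕜) :
    ((m • V 𝕜) ^ k) x = m ^ k • ((V 𝕜) ^ k) x := by
  induction k with
  | zero => simp
  | succ k ih =>
    rw [pow_succ' (m • V 𝕜), pow_succ' (V 𝕜)]
    change (m • V 𝕜) (((m • V 𝕜) ^ k) x) = m ^ (k + 1) • (V 𝕜) (((V 𝕜) ^ k) x)
    rw [ih, map_smul, _root_.smul_apply, smul_smul, pow_succ]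

lemma summable_pow (m : 𝕜) : Summable (fun k : ℕ => (m • V 𝕜) ^ k) := by
  apply Summable.of_norm_bounded (g := fun k : ℕ => ‖m‖ ^ k / (k.factorial : ℝ))
    (Real.summable_pow_div_factorial ‖m‖)
  intro k
  refine ContinuousLinearMap.opNorm_le_bound _ (by positivity) fun x => ?_
  rw [smul_V_pow, norm_smul, norm_pow, div_eq_mul_inv, mul_assoc]
  exact mul_le_mul_of_nonneg_left (V_pow_norm 𝕜 k x) (by positivity)

/-- The inverse of `1 - m V`. -/
noncomputable def R (m : 𝕜) : (ℕ →ᵇ 𝕜) →L[𝕜] (ℕ →ᵇ 𝕜) := ∑' k : ℕ, (m • V 𝕜) ^ k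

lemma R_eq_left (m : 𝕜) : R 𝕜 m = 1 + (m • V 𝕜) * R 𝕜 m := by
  have hs := summable_pow 𝕜 m
  have h1 : R 𝕜 m = (m • V 𝕜) ^ 0 + ∑' k : ℕ, (m • V 𝕜) ^ (k + 1) := hs.tsum_eq_zero_add
  rw [pow_zero] at h1
  conv_lhs => rw [h1]
  congr 1
  rw [R, ← hs.tsum_mul_left]
  exact tsum_congr fun k => pow_succ' _ _

lemma R_eq_right (m : 𝕜) : R 𝕜 m = 1 + R 𝕜 m * (m • V 𝕜) := by
  have hs := summable_pow 𝕜 m
  have h1 : R 𝕜 m = (m • V 𝕜) ^ 0 + ∑' k : ℕ, (m • V 𝕜) ^ (k + 1) := hs.tsum_eq_zero_add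
  rw [pow_zero] at h1
  conv_lhs => rw [h1]
  congr 1
  rw [R, ← hs.tsum_mul_right]
  exact tsum_congr fun k => pow_succ _ _

lemma R_left (m : 𝕜) (x : ℕ →ᵇ 𝕜) : R 𝕜 m x = x + m • V 𝕜 (R 𝕜 m x) := by
  have h := congrArg (fun T : (ℕ →ᵇ 𝕜) →L[𝕜] (ℕ →ᵇ 𝕜) => T x) (R_eq_left 𝕜 m)
  simpa using h

lemma R_right (m : 𝕜) (x : ℕ →ᵇ 𝕜) : R 𝕜 m x = x + m • R 𝕜 m (V 𝕜 x) := by
  have h := congrArg (fun T : (ℕ →ᵇ 𝕜) →L[𝕜] (ℕ →ᵇ 𝕜) => T x) (R_eq_right 𝕜 m)
  simpa using h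

/-- The Frechet space: the projective limit of `X ← X ← X ← ⋯` along `V`. -/
noncomputable def S : Submodule 𝕜 (ℕ → (ℕ →ᵇ 𝕜)) where
  carrier := {x | ∀ k, V 𝕜 (x (k + 1)) = x k}
  add_mem' := by
    intro a b ha hb k
    simp only [Set.mem_ofPred_eq] at ha hb
    simp [ha k, hb k]
  zero_mem' := by
    intro k
    simp
  smul_mem' := by
    intro c a ha k
    simp only [Set.mem_ofPred_eq] at ha
    simp [ha k]

lemma S_closed : IsClosed (S 𝕜 : Set (ℕ → (ℕ →ᵇ 𝕜))) := by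
  have : (S 𝕜 : Set (ℕ → (ℕ →ᵇ 𝕜))) = ⋂ k : ℕ, {x | V 𝕜 (x (k + 1)) = x k} := by
    ext x
    simp [S]
  rw [this]
  refine isClosed_iInter fun k => isClosed_eq ?_ ?_
  · exact (V 𝕜).continuous.comp (continuous_apply (k + 1))
  · exact continuous_apply k

instance : CompleteSpace (S 𝕜) := (S_closed 𝕜).completeSpace_coe

instance : IsUniformAddGroup (S 𝕜) := (S 𝕜).toAddSubgroup.isUniformAddGroup

lemma S_prop (x : S 𝕜) (k : ℕ) : V 𝕜 (x.1 (k + 1)) = x.1 k := x.2 k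

lemma S_pow (x : S 𝕜) (k : ℕ) : ∀ j : ℕ, ((V 𝕜) ^ k) (x.1 (j + k)) = x.1 j := by
  induction k with
  | zero => intro j; simp
  | succ k ih =>
    intro j
    rw [pow_succ]
    change ((V 𝕜) ^ k) (V 𝕜 (x.1 (j + (k + 1)))) = x.1 j
    rw [← add_assoc, S_prop]
    exact ih j

/-- The operator: the left shift. -/
noncomputable def U : S 𝕜 →L[𝕜] S 𝕜 where
  toFun x := ⟨fun k => x.1 (k + 1), fun k => x.2 (k + 1)⟩
  map_add' x y := by
    ext
    rfl
  map_smul' c x := by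
    ext
    rfl
  cont := by
    refine Continuous.subtype_mk ?_ _
    refine continuous_pi fun k => ?_
    exact (continuous_apply (k + 1)).comp continuous_subtype_val

lemma U_coord (x : S 𝕜) (k : ℕ) : (U 𝕜 x).1 k = x.1 (k + 1) := rfl

lemma U_pow_coord (x : S 𝕜) (j : ℕ) : ∀ k, (((U 𝕜) ^ j) x).1 k = x.1 (k + j) := by
  induction j with
  | zero => intro k; simp
  | succ j ih =>
    intro k
    rw [pow_succ']
    change (U 𝕜 (((U 𝕜) ^ j) x)).1 k = _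
    rw [U_coord, ih, add_right_comm]
    rfl

lemma U_bij (l : 𝕜) : Function.Bijective (fun x : S 𝕜 => x - l • U 𝕜 x) := by
  by_cases hl : l = 0
  · subst hl
    have : (fun x : S 𝕜 => x - (0 : 𝕜) • U 𝕜 x) = id := by
      funext x
      simp
    rw [this]
    exact Function.bijective_id
  set m : 𝕜 := l⁻¹ with hm
  have hlm : l * m = 1 := mul_inv_cancel₀ hl
  have hml : m * l = 1 := inv_mul_cancel₀ hl
  constructor
  · intro x y hxy
    have hz : (x - y) - l • U 𝕜 (x - y) = 0 := by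
      have : x - l • U 𝕜 x = y - l • U 𝕜 y := hxy
      rw [map_sub, smul_sub]
      rw [sub_sub_sub_comm, this, sub_self]
    set z := x - y with hzdef
    have hc : ∀ k, z.1 k = l • z.1 (k + 1) := by
      intro k
      have h := congrArg (fun w : S 𝕜 => w.1 k) hz
      simp only [Submodule.coe_sub, Submodule.coe_smul, Pi.sub_apply, Pi.smul_apply, U_coord,
        Submodule.coe_zero, Pi.zero_apply] at h
      exact sub_eq_zero.mp h
    have hV : ∀ k, z.1 (k + 1) = m • V 𝕜 (z.1 (k + 1)) := by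
      intro k
      rw [S_prop, hc k, smul_smul, hml, one_smul]
    have hR : ∀ k, z.1 (k + 1) = 0 := by
      intro k
      have h1 := R_right 𝕜 m (z.1 (k + 1))
      have h2 : R 𝕜 m (z.1 (k + 1)) = m • R 𝕜 m (V 𝕜 (z.1 (k + 1))) := by
        conv_lhs => rw [hV k]
        rw [map_smul]
      rw [h2] at h1
      exact (right_eq_add.mp h1)
    have h0 : ∀ k, z.1 k = 0 := by
      intro k
      rw [hc k, hR k, smul_zero]
    have hz0 : z = 0 := by
      apply Subtype.ext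
      funext k
      simpa using h0 k
    exact sub_eq_zero.mp hz0
  · intro y
    have hcomm : ∀ x, V 𝕜 (R 𝕜 m x) = R 𝕜 m (V 𝕜 x) := by
      intro x
      by_cases hm0 : m = 0
      · rw [hm0, mul_zero] at hlm
        exact absurd hlm zero_ne_one
      have h1 := R_left 𝕜 m x
      have h2 := R_right 𝕜 m x
      rw [h1] at h2
      have h3 : m • V 𝕜 (R 𝕜 m x) = m • R 𝕜 m (V 𝕜 x) := add_left_cancel h2
      exact smul_right_injective _ hm0 h3
    refine ⟨⟨fun k => -(m • V 𝕜 (R 𝕜 m (y.1 k))), ?_⟩, ?_⟩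
    · intro k
      simp only [map_neg, map_smul]
      rw [hcomm (y.1 (k + 1)), S_prop]
    · apply Subtype.ext
      funext k
      simp only [Submodule.coe_sub, Submodule.coe_smul, Pi.sub_apply, Pi.smul_apply, U_coord]
      have e1 : V 𝕜 (R 𝕜 m (y.1 (k + 1))) = R 𝕜 m (y.1 k) := by
        rw [hcomm, S_prop]
      rw [e1, smul_neg, smul_smul, hlm, one_smul]
      have h1 := R_left 𝕜 m (y.1 k)
      rw [sub_neg_eq_add]
      nth_rewrite 2 [h1]
      abel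

lemma U_div (l : 𝕜) (hl : l ≠ 0) (x : S 𝕜) (hx : x ≠ 0) :
    ¬ ∃ s : S 𝕜, Tendsto (fun N : ℕ => ∑ k ∈ Finset.range N, l ^ k • ((U 𝕜) ^ k) x) atTop
      (𝓝 s) := by
  rintro ⟨s, hs⟩
  apply hx
  apply Subtype.ext
  funext j
  have hs1 : Tendsto (fun N : ℕ => ∑ k ∈ Finset.range (N + 1), l ^ k • ((U 𝕜) ^ k) x) atTop
      (𝓝 s) := hs.comp (tendsto_add_atTop_nat 1)
  have hd : Tendsto (fun N : ℕ => l ^ N • ((U 𝕜) ^ N) x) atTop (𝓝 0) := by
    have h := hs1.sub hs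
    rw [sub_self] at h
    refine h.congr fun N => ?_
    rw [Finset.sum_range_succ, add_sub_cancel_left]
  have hcoord : Tendsto (fun N : ℕ => l ^ N • x.1 (j + N)) atTop (𝓝 0) := by
    have hcont : Continuous (fun w : S 𝕜 => w.1 j) :=
      (continuous_apply j).comp continuous_subtype_val
    have h := (hcont.tendsto 0).comp hd
    refine h.congr fun N => ?_
    change (l ^ N • ((U 𝕜) ^ N) x : S 𝕜).1 j = _
    rw [Submodule.coe_smul, Pi.smul_apply, U_pow_coord]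
  have hnorm : Tendsto (fun N : ℕ => ‖l ^ N • x.1 (j + N)‖) atTop (𝓝 0) := by
    simpa using hcoord.norm
  have hbound : ∀ N : ℕ, ‖x.1 j‖ ≤
      (‖l‖⁻¹ ^ N / (N.factorial : ℝ)) * ‖l ^ N • x.1 (j + N)‖ := by
    intro N
    have h1 := V_pow_norm 𝕜 N (x.1 (j + N))
    rw [S_pow] at h1
    have hl' : ‖l‖ ≠ 0 := norm_ne_zero_iff.mpr hl
    rw [norm_smul, norm_pow]
    have : (‖l‖⁻¹ ^ N / (N.factorial : ℝ)) * (‖l‖ ^ N * ‖x.1 (j + N)‖)
        = ((N.factorial : ℝ))⁻¹ * ‖x.1 (j + N)‖ := by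
      rw [inv_pow]
      field_simp
    rw [this]
    exact h1
  have hlim : Tendsto (fun N : ℕ => (‖l‖⁻¹ ^ N / (N.factorial : ℝ)) * ‖l ^ N • x.1 (j + N)‖)
      atTop (𝓝 (0 * 0)) :=
    (FloorSemiring.tendsto_pow_div_factorial_atTop ‖l‖⁻¹).mul hnorm
  rw [mul_zero] at hlim
  have h0 : ‖x.1 j‖ ≤ 0 := ge_of_tendsto' hlim hbound
  simpa using h0

/-- A nonzero element of the space: `x_k = k! δ_k`. -/
noncomputable def delta (k : ℕ) : ℕ →ᵇ 𝕜 :=
  BoundedContinuousFunction.ofNormedAddCommGroupDiscrete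
    (fun n => if n = k then ((k.factorial : ℕ) : 𝕜) else 0) (k.factorial : ℝ) (by
      intro n
      by_cases h : n = k
      · simp [h]
      · simp [h])

lemma delta_apply (k n : ℕ) :
    delta 𝕜 k n = if n = k then ((k.factorial : ℕ) : 𝕜) else 0 := rfl

noncomputable def witness : S 𝕜 := ⟨delta 𝕜, by
  intro k
  ext n
  rw [V_apply, delta_apply, delta_apply]
  by_cases h : n = k
  · subst h
    simp only [if_true]
    rw [Nat.factorial_succ]
    push_cast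
    have h0 : ((n : 𝕜) + 1) ≠ 0 := by
      rw [← norm_ne_zero_iff, norm_cast_succ]
      positivity
    field_simp
  · simp [h]⟩

lemma witness_ne : witness 𝕜 ≠ 0 := by
  intro h
  have h1 := congrArg (fun w : S 𝕜 => w.1 0 0) h
  simp [witness, delta_apply] at h1

instance : Nontrivial (S 𝕜) := ⟨⟨witness 𝕜, 0, witness_ne 𝕜⟩⟩

/-- The coordinate seminorms. -/
noncomputable def q : SeminormFamily 𝕜 (S 𝕜) ℕ := fun k =>
  (normSeminorm 𝕜 (ℕ →ᵇ 𝕜)).comp ((LinearMap.proj k).comp (S 𝕜).subtype)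

lemma q_with : WithSeminorms (q 𝕜) := by
  rw [SeminormFamily.withSeminorms_iff_nhds_eq_iInf]
  have h1 : (𝓝 (0 : S 𝕜)) = Filter.comap (fun x : S 𝕜 => x.1) (𝓝 (0 : ℕ → (ℕ →ᵇ 𝕜))) := by
    rw [nhds_subtype_eq_comap]
    rfl
  rw [h1, nhds_pi, Filter.pi, Filter.comap_iInf]
  refine iInf_congr fun k => ?_
  rw [Filter.comap_comap, Pi.zero_apply, ← comap_norm_nhds_zero, Filter.comap_comap]
  rfl

theorem result (𝕜 : Type) [RCLike 𝕜] :
    ∃ (E : Type) (_ : AddCommGroup E) (_ : Module 𝕜 E) (_ : UniformSpace E)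
      (_ : IsUniformAddGroup E) (_ : CompleteSpace E) (_ : T2Space E)
      (p : SeminormFamily 𝕜 E ℕ) (U : E →L[𝕜] E),
      Monotone p ∧ WithSeminorms p ∧ Nontrivial E ∧
      (∀ l : 𝕜, Function.Bijective (fun x : E => x - l • U x)) ∧
      ∀ l : 𝕜, l ≠ 0 → ∀ x : E, x ≠ 0 →
        ¬ ∃ s : E, Tendsto (fun N : ℕ => ∑ k ∈ Finset.range N, l ^ k • (U ^ k) x) atTop (𝓝 s) := by
  refine ⟨S 𝕜, inferInstance, inferInstance, inferInstance, inferInstance, inferInstance,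
    inferInstance, fun i => (Finset.Iic i).sup (q 𝕜), U 𝕜, ?_, ?_, inferInstance, U_bij 𝕜,
    U_div 𝕜⟩
  · intro a b hab
    exact Finset.sup_mono (Finset.Iic_subset_Iic.mpr hab)
  · exact (q_with 𝕜).partial_sups

end Pool.Agent.Results.MP_18d2fb_an.NeumannFails
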